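import Pool.Agent.H34.FQ.Targets
import Pool.Agent.H68.RQ.HEN

/-!
Row MOV of hfq_modules: moving a point away from the section `c = 0`.
-/

set_option autoImplicit false

open Finset Pool.Agent.H32.RQ Pool.Agent.H34.FQ Pool.Agent.H68.RQ

namespace Pool.Agent.H90.FQ

theorem qf_sub_dvd {s : ℕ} (f : Mon s → ℤ) (x y : Fin s → ℤ) (m : ℤ)
    (h : ∀ j, m ∣ y j - x j) : m ∣ qf f y - qf f x := by
  unfold qf
  rw [← Finset.sum_sub_distrib]
  refine Finset.dvd_sum fun p _ => ?_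
  rw [← mul_sub]
  refine Dvd.dvd.mul_left ?_ _
  have e : y p.1.1 * y p.1.2 - x p.1.1 * x p.1.2 =
      (y p.1.1 - x p.1.1) * y p.1.2 + x p.1.1 * (y p.1.2 - x p.1.2) := by ring
  rw [e]
  exact dvd_add (Dvd.dvd.mul_right (h _) _) (Dvd.dvd.mul_left (h _) _)

/-- the exact power of `p` in a number which is not divisible by `p ^ t` -/
theorem exact_pow (p t : ℕ) (z : ℤ) (h : ¬ (p : ℤ) ^ t ∣ z) :
    ∃ τ, τ < t ∧ (p : ℤ) ^ τ ∣ z ∧ ¬ (p : ℤ) ^ (τ + 1) ∣ z := by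
  classical
  have hex : ∃ m, ¬ (p : ℤ) ^ m ∣ z := ⟨t, h⟩
  have h1 := Nat.find_spec hex
  have h0 : Nat.find hex ≠ 0 := by
    intro h0
    rw [h0, pow_zero] at h1
    exact h1 (one_dvd _)
  obtain ⟨τ, hτ⟩ := Nat.exists_eq_succ_of_ne_zero h0
  refine ⟨τ, ?_, ?_, ?_⟩
  · have := Nat.find_min' hex h
    omega
  · by_contra hc
    have := Nat.find_min' hex hc
    omega
  · rw [hτ] at h1
    exact h1

theorem jm_pb_dvd (hPBK : T_PBK) {s : ℕ} (T Ti : Matrix (Fin s) (Fin s) ℤ) (h1 : T * Ti = 1)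
    (h2 : Ti * T = 1) (F f : Mon s → ℤ) (y : Fin s → ℤ) (m : ℤ)
    (h : ∀ a b, m ∣ jm ![pb T F, pb T f] (fun i => ∑ j, Ti i j * y j) a b) (a b : Fin s) :
    m ∣ jm ![F, f] y a b := by
  have hd : ∀ (g : Mon s → ℤ) (j : Fin s), dq g y j =
      ∑ i, Ti i j * dq (pb T g) (fun i => ∑ j, Ti i j * y j) i := by
    intro g j
    have h3 := (hPBK ℤ s Ti (pb T g) y).2.1 j
    rw [(hPBK ℤ s T g y).2.2 Ti h1 h2] at h3
    exact h3
  set e : Fin s → ℤ := fun i => ∑ j, Ti i j * y j with he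
  have h4 : jm ![F, f] y a b = ∑ i, ∑ l, Ti i a * Ti l b * jm ![pb T F, pb T f] e i l := by
    have h5 : jm ![F, f] y a b = dq F y a * dq f y b - dq F y b * dq f y a := rfl
    rw [h5, hd F a, hd F b, hd f a, hd f b]
    have h6 : (∑ i, Ti i a * dq (pb T F) e i) * (∑ l, Ti l b * dq (pb T f) e l) =
        ∑ i, ∑ l, Ti i a * Ti l b * (dq (pb T F) e i * dq (pb T f) e l) := by
      rw [Finset.sum_mul_sum]
      refine Finset.sum_congr rfl fun i _ => Finset.sum_congr rfl fun l _ => ?_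
      ring
    have h7 : (∑ l, Ti l b * dq (pb T F) e l) * (∑ i, Ti i a * dq (pb T f) e i) =
        ∑ i, ∑ l, Ti i a * Ti l b * (dq (pb T F) e l * dq (pb T f) e i) := by
      rw [Finset.sum_mul_sum, Finset.sum_comm]
      refine Finset.sum_congr rfl fun i _ => Finset.sum_congr rfl fun l _ => ?_
      ring
    rw [h6, h7, ← Finset.sum_sub_distrib]
    refine Finset.sum_congr rfl fun i _ => ?_
    rw [← Finset.sum_sub_distrib]
    refine Finset.sum_congr rfl fun l _ => ?_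
    have h8 : jm ![pb T F, pb T f] e i l =
        dq (pb T F) e i * dq (pb T f) e l - dq (pb T F) e l * dq (pb T f) e i := rfl
    rw [h8]
    ring
  rw [h4]
  refine Finset.dvd_sum fun i _ => Finset.dvd_sum fun l _ => ?_
  exact Dvd.dvd.mul_left (h i l) _

theorem pf_MOV (hHEN : T_HEN) (hPBK : T_PBK) : T_MOV := by
  intro n F N f p t k hp hPR hNQ
  obtain ⟨x, ⟨i0, hi0⟩, hx, j0, l0, hjl⟩ := hPR
  have hp1 : (1:ℤ) ≤ p := by exact_mod_cast hp.one_lt.le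
  obtain ⟨τ0, hτ0, hd1, hd2⟩ := exact_pow p t _ hjl
  obtain ⟨y, -, hy2, hy3⟩ := hHEN (n + 2) p τ0 (k + 4 * t) ![F, f] x j0 l0 hp hd1 hd2
    (fun i => (pow_dvd_pow (p : ℤ) (by omega)).trans (hx i))
  have hyF : (p : ℤ) ^ (k + 4 * t) ∣ qf F y := hy3 0
  have hyf : (p : ℤ) ^ (k + 4 * t) ∣ qf f y := hy3 1
  have hpd : ∀ m : ℕ, (p : ℤ) ∣ (p : ℤ) ^ (m + 1) := fun m => dvd_pow_self _ (by omega)
  have hyprim : ¬ (p : ℤ) ∣ y i0 := by
    intro h
    apply hi0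
    have := (hpd τ0).trans (hy2 i0)
    exact (dvd_sub_right h).mp this
  have hyjm : ¬ (p : ℤ) ^ t ∣ jm ![F, f] y j0 l0 := by
    intro h
    apply hd2
    have h1 := jm_sub_dvd ![F, f] x y _ hy2 j0 l0
    have h2 : (p : ℤ) ^ (τ0 + 1) ∣ jm ![F, f] y j0 l0 := (pow_dvd_pow (p : ℤ) (by omega)).trans h
    exact (dvd_sub_right h2).mp h1
  set e : Fin (n + 2) → ℤ := fun i => ∑ j, N.Ti i j * y j with he
  have hTe : (fun i => ∑ j, N.T i j * e j) = y := by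
    funext i
    have h1 : (N.T * N.Ti).mulVec y i = y i := by rw [N.h1, Matrix.one_mulVec]
    rw [← Matrix.mulVec_mulVec] at h1
    exact h1
  have hqf : ∀ g : Mon (n + 2) → ℤ, qf (pb N.T g) e = qf g y := by
    intro g
    rw [(hPBK ℤ (n + 2) N.T g e).1, hTe]
  have heprim : ∃ i, ¬ (p : ℤ) ∣ e i := by
    by_contra hc
    push Not at hc
    apply hyprim
    rw [← congrFun hTe i0]
    exact Finset.dvd_sum fun j _ => Dvd.dvd.mul_left (hc j) _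
  have hejm : ∃ a b, ¬ (p : ℤ) ^ t ∣ jm ![pb N.T F, pb N.T f] e a b := by
    by_contra hc
    push Not at hc
    exact hyjm (jm_pb_dvd hPBK N.T N.Ti N.h1 N.h2 F f y _ hc j0 l0)
  have heF : (p : ℤ) ^ (k + 4 * t) ∣ qf (pb N.T F) e := by rw [hqf]; exact hyF
  have hef : (p : ℤ) ^ (k + 4 * t) ∣ qf (pb N.T f) e := by rw [hqf]; exact hyf
  by_cases h0 : (p : ℤ) ^ (2 * t) ∣ e 0
  swap
  · exact ⟨e, heprim, h0, (pow_dvd_pow (p : ℤ) (by omega)).trans heF,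
      (pow_dvd_pow (p : ℤ) (by omega)).trans hef, hejm⟩
  have h3 : ∃ a b, a ≠ 0 ∧ b ≠ 0 ∧ ¬ (p : ℤ) ^ t ∣ jm ![pb N.T F, pb N.T f] e a b := by
    by_contra hc
    push Not at hc
    exact hNQ ⟨e, heprim, (pow_dvd_pow (p : ℤ) (by omega)).trans h0,
      (pow_dvd_pow (p : ℤ) (by omega)).trans heF, (pow_dvd_pow (p : ℤ) (by omega)).trans hef,
      fun a b ha hb => hc a b ha hb⟩
  obtain ⟨a, b, ha, hb, hab⟩ := h3
  obtain ⟨τ, hτ, g1, g2⟩ := exact_pow p t _ hab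
  set e1 : Fin (n + 2) → ℤ := fun i => e i + (if i = 0 then (p : ℤ) ^ (2 * τ + 1) else 0) with he1
  have hcong : ∀ j, (p : ℤ) ^ (2 * τ + 1) ∣ e1 j - e j := by
    intro j
    have : e1 j - e j = (if j = 0 then (p : ℤ) ^ (2 * τ + 1) else 0) := by
      rw [he1]
      ring
    rw [this]
    split_ifs
    · exact dvd_rfl
    · exact dvd_zero _
  have hF1 : (p : ℤ) ^ (2 * τ + 1) ∣ qf (pb N.T F) e1 := by
    have h4 := qf_sub_dvd (pb N.T F) e e1 _ hcong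
    exact (dvd_sub_left ((pow_dvd_pow (p : ℤ) (by omega)).trans heF)).mp h4
  have hf1 : (p : ℤ) ^ (2 * τ + 1) ∣ qf (pb N.T f) e1 := by
    have h4 := qf_sub_dvd (pb N.T f) e e1 _ hcong
    exact (dvd_sub_left ((pow_dvd_pow (p : ℤ) (by omega)).trans hef)).mp h4
  have hj1 := jm_sub_dvd ![pb N.T F, pb N.T f] e e1 _ hcong a b
  have hj2 : (p : ℤ) ^ τ ∣ jm ![pb N.T F, pb N.T f] e1 a b :=
    (dvd_sub_left g1).mp ((pow_dvd_pow (p : ℤ) (by omega)).trans hj1)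
  have hj3 : ¬ (p : ℤ) ^ (τ + 1) ∣ jm ![pb N.T F, pb N.T f] e1 a b := by
    intro h
    apply g2
    exact (dvd_sub_right h).mp ((pow_dvd_pow (p : ℤ) (by omega)).trans hj1)
  obtain ⟨z, hz1, hz2, hz3⟩ := hHEN (n + 2) p τ k ![pb N.T F, pb N.T f] e1 a b hp hj2 hj3 (by
    intro i
    fin_cases i
    · exact hF1
    · exact hf1)
  refine ⟨z, ?_, ?_, hz3 0, hz3 1, a, b, ?_⟩
  · obtain ⟨i, hi⟩ := heprim
    refine ⟨i, fun h => hi ?_⟩
    have h5 := (hpd τ).trans (hz2 i)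
    have h6 : (p : ℤ) ∣ e1 i := (dvd_sub_right h).mp h5
    have h7 := (hpd (2 * τ)).trans (hcong i)
    exact (dvd_sub_right h6).mp h7
  · intro h
    have h5 : z 0 = e 0 + (p : ℤ) ^ (2 * τ + 1) := by
      rw [hz1 0 (fun hh => ha hh.symm) (fun hh => hb hh.symm)]
      rw [he1]
      exact congrArg (e 0 + ·) (if_pos rfl)
    rw [h5] at h
    have h6 : (p : ℤ) ^ (2 * t) ∣ (p : ℤ) ^ (2 * τ + 1) := (dvd_add_right h0).mp h
    have h7 : p ^ (2 * t) ∣ p ^ (2 * τ + 1) := by exact_mod_cast h6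
    rw [Nat.pow_dvd_pow_iff_le_right hp.one_lt] at h7
    omega
  · intro h
    apply hj3
    have h5 := jm_sub_dvd ![pb N.T F, pb N.T f] e1 z _ hz2 a b
    exact (dvd_sub_right ((pow_dvd_pow (p : ℤ) (by omega)).trans h)).mp h5

end Pool.Agent.H90.FQ
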