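import Pool.Agent.H34.FQ.Targets
import Pool.Agent.H68.RQ.HEN

/-!
Row PBK of hfq_modules: linear substitutions in quadratic forms.
-/

set_option autoImplicit false

open Finset Pool.Agent.H32.RQ Pool.Agent.H34.FQ Pool.Agent.H68.RQ

namespace Pool.Agent.H90.FQ

theorem sum_sq_mon {R : Type} [CommRing R] {s : ℕ} (H : Fin s → Fin s → R) :
    ∑ j, ∑ l, H j l = ∑ p : Mon s, (if p.1.1 = p.1.2 then H p.1.1 p.1.2
      else H p.1.1 p.1.2 + H p.1.2 p.1.1) := by
  classical
  have h1 : ∑ j, ∑ l, H j l = ∑ q : Fin s × Fin s, H q.1 q.2 := by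
    rw [Fintype.sum_prod_type]
  rw [h1, ← Finset.sum_filter_add_sum_filter_not Finset.univ (fun q : Fin s × Fin s => q.1 ≤ q.2)
    (fun q => H q.1 q.2)]
  have h2 : ∑ q ∈ Finset.univ.filter (fun q : Fin s × Fin s => q.1 ≤ q.2), H q.1 q.2 =
      ∑ p : Mon s, H p.1.1 p.1.2 :=
    Finset.sum_subtype (p := fun q : Fin s × Fin s => q.1 ≤ q.2) _ (fun q => by
      rw [Finset.mem_filter]
      exact ⟨fun h => h.2, fun h => ⟨Finset.mem_univ _, h⟩⟩) (fun q => H q.1 q.2)
  have h3 : ∑ q ∈ Finset.univ.filter (fun q : Fin s × Fin s => ¬ q.1 ≤ q.2), H q.1 q.2 =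
      ∑ p : Mon s, (if p.1.1 = p.1.2 then 0 else H p.1.2 p.1.1) := by
    have h4 : ∑ q ∈ Finset.univ.filter (fun q : Fin s × Fin s => ¬ q.1 ≤ q.2), H q.1 q.2 =
        ∑ q ∈ Finset.univ.filter (fun q : Fin s × Fin s => q.1 ≤ q.2),
          (if q.1 = q.2 then 0 else H q.2 q.1) := by
      rw [← Finset.sum_filter_add_sum_filter_not
        (Finset.univ.filter (fun q : Fin s × Fin s => q.1 ≤ q.2)) (fun q => q.1 = q.2)
        (fun q => if q.1 = q.2 then 0 else H q.2 q.1)]
      rw [Finset.sum_eq_zero (s := (Finset.univ.filter (fun q : Fin s × Fin s => q.1 ≤ q.2)).filter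
        (fun q => q.1 = q.2)) (fun q hq => if_pos (Finset.mem_filter.mp hq).2), zero_add]
      refine Finset.sum_bij (fun q _ => (q.2, q.1)) ?_ ?_ ?_ ?_
      · intro q hq
        rw [Finset.mem_filter] at hq
        rw [Finset.mem_filter, Finset.mem_filter]
        have := lt_of_not_ge hq.2
        exact ⟨⟨Finset.mem_univ _, this.le⟩, this.ne⟩
      · intro a _ b _ h
        rw [Prod.mk.injEq] at h
        exact Prod.ext h.2 h.1
      · intro b hb
        rw [Finset.mem_filter, Finset.mem_filter] at hb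
        refine ⟨(b.2, b.1), ?_, rfl⟩
        rw [Finset.mem_filter]
        exact ⟨Finset.mem_univ _, not_le_of_gt (lt_of_le_of_ne hb.1.2 hb.2)⟩
      · intro q hq
        rw [Finset.mem_filter] at hq
        have := lt_of_not_ge hq.2
        rw [if_neg]
        exact this.ne
    rw [h4]
    exact Finset.sum_subtype (p := fun q : Fin s × Fin s => q.1 ≤ q.2) _ (fun q => by
      rw [Finset.mem_filter]
      exact ⟨fun h => h.2, fun h => ⟨Finset.mem_univ _, h⟩⟩)
      (fun q : Fin s × Fin s => if q.1 = q.2 then 0 else H q.2 q.1)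
  rw [h2, h3, ← Finset.sum_add_distrib]
  refine Finset.sum_congr rfl fun p _ => ?_
  split_ifs
  · rw [add_zero]
  · rfl

theorem bl_eq {R : Type} [CommRing R] {s : ℕ} (f : Mon s → R) (x y : Fin s → R) :
    bl f x y = ∑ p : Mon s, f p * (x p.1.1 * y p.1.2 + x p.1.2 * y p.1.1) := by
  unfold bl
  have h1 : ∑ i, x i * dq f y i = ∑ i, dq f y i * x i :=
    Finset.sum_congr rfl fun i _ => mul_comm _ _
  rw [h1, sum_dq]
  refine Finset.sum_congr rfl fun p _ => ?_
  ring

theorem qf_pb {R : Type} [CommRing R] {s : ℕ} (T : Matrix (Fin s) (Fin s) R) (f : Mon s → R)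
    (x : Fin s → R) : qf (pb T f) x = qf f (fun i => ∑ j, T i j * x j) := by
  have h1 : qf f (fun i => ∑ j, T i j * x j) =
      ∑ j, ∑ l, (x j * x l * ∑ p : Mon s, f p * (T p.1.1 j * T p.1.2 l)) := by
    unfold qf
    have h0 : ∀ p : Mon s, f p * ((∑ j, T p.1.1 j * x j) * (∑ l, T p.1.2 l * x l)) =
        ∑ j, ∑ l, x j * x l * (f p * (T p.1.1 j * T p.1.2 l)) := by
      intro p
      rw [Finset.sum_mul_sum, Finset.mul_sum]
      refine Finset.sum_congr rfl fun j _ => ?_
      rw [Finset.mul_sum]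
      refine Finset.sum_congr rfl fun l _ => ?_
      ring
    rw [Finset.sum_congr rfl fun p _ => h0 p, Finset.sum_comm]
    refine Finset.sum_congr rfl fun j _ => ?_
    rw [Finset.sum_comm]
    refine Finset.sum_congr rfl fun l _ => ?_
    rw [Finset.mul_sum]
  rw [h1, sum_sq_mon (fun j l => x j * x l * ∑ p : Mon s, f p * (T p.1.1 j * T p.1.2 l))]
  unfold qf
  refine Finset.sum_congr rfl fun q _ => ?_
  unfold pb
  by_cases h : q.1.1 = q.1.2
  · rw [if_pos h, if_pos h, ← h]
    unfold qf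
    ring
  · rw [if_neg h, if_neg h, bl_eq]
    have h2 : ∑ p : Mon s, f p * (T p.1.1 q.1.1 * T p.1.2 q.1.2 + T p.1.2 q.1.1 * T p.1.1 q.1.2) =
        ∑ p : Mon s, f p * (T p.1.1 q.1.1 * T p.1.2 q.1.2) +
          ∑ p : Mon s, f p * (T p.1.1 q.1.2 * T p.1.2 q.1.1) := by
      rw [← Finset.sum_add_distrib]
      refine Finset.sum_congr rfl fun p _ => ?_
      ring
    rw [h2]
    ring

theorem dq_polar {R : Type} [CommRing R] {s : ℕ} (f : Mon s → R) (x : Fin s → R) (j : Fin s) :
    dq f x j = qf f (fun i => x i + (if i = j then 1 else 0)) - qf f x -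
      qf f (fun i => if i = j then 1 else 0) := by
  rw [qf_add]
  have h : ∑ i, dq f x i * (if i = j then 1 else 0) = dq f x j := by
    simp
  rw [h]
  ring

theorem dq_pb {R : Type} [CommRing R] {s : ℕ} (T : Matrix (Fin s) (Fin s) R) (f : Mon s → R)
    (x : Fin s → R) (j : Fin s) :
    dq (pb T f) x j = ∑ i, T i j * dq f (fun i => ∑ j, T i j * x j) i := by
  rw [dq_polar, qf_pb, qf_pb, qf_pb]
  have h1 : (fun i => ∑ l, T i l * (x l + (if l = j then 1 else 0))) =
      (fun i => (∑ l, T i l * x l) + T i j) := by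
    funext i
    simp [mul_add, Finset.sum_add_distrib]
  have h2 : (fun i => ∑ l, T i l * (if l = j then 1 else 0)) = (fun i => T i j) := by
    funext i
    simp
  rw [h1, h2, qf_add]
  have h3 : ∑ i, T i j * dq f (fun i => ∑ j, T i j * x j) i =
      ∑ i, dq f (fun i => ∑ j, T i j * x j) i * T i j :=
    Finset.sum_congr rfl fun i _ => mul_comm _ _
  rw [h3]
  ring

theorem qf_single {R : Type} [CommRing R] {s : ℕ} (f : Mon s → R) (j : Fin s) :
    qf f (fun i => if i = j then 1 else 0) = f ⟨(j, j), le_rfl⟩ := by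
  unfold qf
  rw [Finset.sum_eq_single ⟨(j, j), le_rfl⟩]
  · simp
  · intro p _ hp
    by_cases h1 : p.1.1 = j
    · by_cases h2 : p.1.2 = j
      · exact absurd (Subtype.ext (Prod.ext h1 h2)) hp
      · simp [h2]
    · simp [h1]
  · intro h
    exact absurd (Finset.mem_univ _) h

theorem dq_single {R : Type} [CommRing R] {s : ℕ} (f : Mon s → R) (p : Mon s)
    (h : p.1.1 ≠ p.1.2) :
    dq f (fun i => if i = p.1.2 then 1 else 0) p.1.1 = f p := by
  have hlt : p.1.1 < p.1.2 := lt_of_le_of_ne p.2 h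
  unfold dq
  rw [Finset.sum_eq_single p]
  · simp [h, h.symm]
  · intro r _ hr
    have h1 : (if r.1.1 = p.1.1 then (if r.1.2 = p.1.2 then (1:R) else 0) else 0) = 0 := by
      split_ifs with g1 g2
      · exact absurd (Subtype.ext (Prod.ext g1 g2)) hr
      · rfl
      · rfl
    have h2 : (if r.1.2 = p.1.1 then (if r.1.1 = p.1.2 then (1:R) else 0) else 0) = 0 := by
      split_ifs with g1 g2
      · exfalso
        have := r.2
        rw [g1, g2] at this
        exact absurd hlt (not_lt_of_ge this)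
      · rfl
      · rfl
    rw [h1, h2, add_zero, mul_zero]
  · intro hh
    exact absurd (Finset.mem_univ _) hh

theorem pf_PBK : T_PBK := by
  intro R _ s T f x
  refine ⟨qf_pb T f x, dq_pb T f x, ?_⟩
  intro Ti h1 h2
  have hcol : ∀ j, (fun i => ∑ l, T i l * Ti l j) = (fun i => if i = j then (1:R) else 0) := by
    intro j
    funext i
    have h3 : (T * Ti) i j = (1 : Matrix (Fin s) (Fin s) R) i j := by rw [h1]
    rw [Matrix.mul_apply, Matrix.one_apply] at h3
    exact h3
  funext p
  unfold pb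
  by_cases h : p.1.1 = p.1.2
  · rw [if_pos h]
    change qf (pb T f) (fun i => Ti i p.1.1) = f p
    rw [qf_pb, hcol, qf_single]
    congr 1
    exact Subtype.ext (Prod.ext rfl h)
  · rw [if_neg h]
    change bl (pb T f) (fun i => Ti i p.1.1) (fun i => Ti i p.1.2) = f p
    unfold bl
    have h4 : ∀ i, dq (pb T f) (fun i => Ti i p.1.2) i =
        ∑ l, T l i * dq f (fun i => if i = p.1.2 then (1:R) else 0) l := by
      intro i
      rw [dq_pb, hcol]
    simp only [h4]
    have h5 : ∑ i, Ti i p.1.1 * ∑ l, T l i * dq f (fun i => if i = p.1.2 then (1:R) else 0) l =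
        ∑ l, (∑ i, T l i * Ti i p.1.1) * dq f (fun i => if i = p.1.2 then (1:R) else 0) l := by
      simp only [Finset.mul_sum, Finset.sum_mul]
      rw [Finset.sum_comm]
      refine Finset.sum_congr rfl fun l _ => ?_
      refine Finset.sum_congr rfl fun i _ => ?_
      ring
    rw [h5]
    have h6 : ∀ l, (∑ i, T l i * Ti i p.1.1) = (if l = p.1.1 then (1:R) else 0) := fun l =>
      congrFun (hcol p.1.1) l
    simp only [h6]
    have h7 : ∑ l, (if l = p.1.1 then (1:R) else 0) *
        dq f (fun i => if i = p.1.2 then (1:R) else 0) l =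
        dq f (fun i => if i = p.1.2 then (1:R) else 0) p.1.1 := by
      simp
    rw [h7]
    exact dq_single f p h

end Pool.Agent.H90.FQ
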