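import Pool.Agent.H90.FQ.PBK
import Pool.Agent.H90.FQ.MOV

/-!
Row TRM of hfq_modules: from a `p`-adic point to the chart.
-/

set_option autoImplicit false

open Finset Pool.Agent.H32.RQ Pool.Agent.H34.FQ Pool.Agent.H68.RQ

namespace Pool.Agent.H90.FQ

theorem qf_smul' {R : Type} [CommRing R] {s : ℕ} (f : Mon s → R) (a : R) (x : Fin s → R) :
    qf f (fun i => a * x i) = a ^ 2 * qf f x := by
  unfold qf
  rw [Finset.mul_sum]
  refine Finset.sum_congr rfl fun p _ => ?_
  ring

theorem dq_smul' {R : Type} [CommRing R] {s : ℕ} (f : Mon s → R) (a : R) (x : Fin s → R)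
    (j : Fin s) : dq f (fun i => a * x i) j = a * dq f x j := by
  unfold dq
  rw [Finset.mul_sum]
  refine Finset.sum_congr rfl fun p _ => ?_
  split_ifs <;> ring

theorem jm_smul' {R : Type} [CommRing R] {s : ℕ} (c : Fin 2 → Mon s → R) (a : R) (x : Fin s → R)
    (j l : Fin s) : jm c (fun i => a * x i) j l = a ^ 2 * jm c x j l := by
  unfold jm
  rw [dq_smul', dq_smul', dq_smul', dq_smul']
  ring

theorem canc (p m V : ℕ) (hp : p.Prime) (u x : ℤ) (hu : ¬ (p : ℤ) ∣ u)
    (h : (p : ℤ) ^ m ∣ (p : ℤ) ^ V * u * x) : (p : ℤ) ^ (m - V) ∣ x := by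
  have hpp : Prime (p : ℤ) := Nat.prime_iff_prime_int.mp hp
  rcases Nat.lt_or_ge m V with hm | hm
  · have : m - V = 0 := by omega
    rw [this, pow_zero]
    exact one_dvd _
  · have h1 : (p : ℤ) ^ m = (p : ℤ) ^ V * (p : ℤ) ^ (m - V) := by
      rw [← pow_add]
      congr 1
      omega
    rw [h1, mul_assoc] at h
    have h2 : (p : ℤ) ^ (m - V) ∣ u * x :=
      (mul_dvd_mul_iff_left (pow_ne_zero _ hpp.ne_zero)).mp h
    have h3 : IsCoprime ((p : ℤ) ^ (m - V)) u :=
      IsCoprime.pow_left ((Prime.coprime_iff_not_dvd hpp).mpr hu)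
    exact h3.dvd_of_dvd_mul_left h2

theorem mv_int {s : ℕ} (T : Matrix (Fin s) (Fin s) ℤ) (x : Fin s → ℤ) :
    mv T x = fun i => ∑ j, T i j * x j := by
  funext i
  unfold mv
  simp only [Int.cast_id]

section NFlem

variable {n : ℕ} {F : Mon (n + 2) → ℤ}

theorem hpol (hPBK : T_PBK) (N : NF F) (c y : ℤ) (v : Fin n → ℤ) :
    qf (pb N.T F) (pt c y v) = N.mu * c * y + qf N.q (cv c v) := by
  have h := N.hF ℤ c y v
  have e1 : cf ℤ F = F := by
    funext p
    simp [cf]
  have e2 : cf ℤ N.q = N.q := by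
    funext p
    simp [cf]
  rw [e1, e2, mv_int, Int.cast_id] at h
  rw [(hPBK ℤ (n + 2) N.T F (pt c y v)).1]
  exact h

theorem q00 (N : NF F) : qf N.q (cv 0 (fun _ => 0)) = 0 := by
  have h : (cv (0:ℤ) (fun _ : Fin n => 0)) = fun _ => 0 := by
    funext i
    refine Fin.cases ?_ (fun l => ?_) i
    · rfl
    · rfl
  rw [h]
  simp [qf]

theorem dF1 (hPBK : T_PBK) (N : NF F) (c y : ℤ) (v : Fin n → ℤ) :
    dq (pb N.T F) (pt c y v) 1 = N.mu * c := by
  rw [dq_polar]
  have h1 : (fun i => pt c y v i + (if i = 1 then 1 else 0)) = pt c (y + 1) v := by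
    funext i
    refine Fin.cases ?_ (fun l => ?_) i
    · simp [pt]
    · refine Fin.cases ?_ (fun r => ?_) l
      · simp [pt]
      · have : (r.succ.succ : Fin (n + 2)) ≠ 1 := by
          intro h
          exact Fin.succ_ne_zero r (Fin.succ_injective _ h)
        rw [if_neg this]
        simp [pt]
  have h2 : (fun i : Fin (n + 2) => (if i = 1 then (1:ℤ) else 0)) = pt 0 1 (fun _ => 0) := by
    funext i
    refine Fin.cases ?_ (fun l => ?_) i
    · simp [pt]
    · refine Fin.cases ?_ (fun r => ?_) l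
      · simp [pt]
      · have : (r.succ.succ : Fin (n + 2)) ≠ 1 := by
          intro h
          exact Fin.succ_ne_zero r (Fin.succ_injective _ h)
        rw [if_neg this]
        simp [pt]
  rw [h1, h2, hpol hPBK, hpol hPBK, hpol hPBK, q00]
  ring

theorem dFss (hPBK : T_PBK) (N : NF F) (c y : ℤ) (v : Fin n → ℤ) (i : Fin n) :
    dq (pb N.T F) (pt c y v) i.succ.succ = dq N.q (cv c v) i.succ := by
  rw [dq_polar, dq_polar]
  have h1 : (fun l => pt c y v l + (if l = i.succ.succ then 1 else 0)) =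
      pt c y (fun l => v l + (if l = i then 1 else 0)) := by
    funext l
    refine Fin.cases ?_ (fun l => ?_) l
    · rw [if_neg (Fin.succ_ne_zero _).symm]
      simp [pt]
    · refine Fin.cases ?_ (fun r => ?_) l
      · rw [if_neg (fun h => Fin.succ_ne_zero i (Fin.succ_injective _ h).symm)]
        simp [pt]
      · simp [pt]
  have h2 : (fun l : Fin (n + 2) => (if l = i.succ.succ then (1:ℤ) else 0)) =
      pt 0 0 (fun l => if l = i then 1 else 0) := by
    funext l
    refine Fin.cases ?_ (fun l => ?_) l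
    · rw [if_neg (Fin.succ_ne_zero _).symm]
      simp [pt]
    · refine Fin.cases ?_ (fun r => ?_) l
      · rw [if_neg (fun h => Fin.succ_ne_zero i (Fin.succ_injective _ h).symm)]
        simp [pt]
      · simp [pt]
  have h3 : (fun l => cv c v l + (if l = i.succ then 1 else 0)) =
      cv c (fun l => v l + (if l = i then 1 else 0)) := by
    funext l
    refine Fin.cases ?_ (fun l => ?_) l
    · rw [if_neg (Fin.succ_ne_zero _).symm]
      simp [cv]
    · simp [cv]
  have h4 : (fun l : Fin (n + 1) => (if l = i.succ then (1:ℤ) else 0)) =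
      cv 0 (fun l => if l = i then 1 else 0) := by
    funext l
    refine Fin.cases ?_ (fun l => ?_) l
    · rw [if_neg (Fin.succ_ne_zero _).symm]
      simp [cv]
    · simp [cv]
  rw [h1, h2, h3, h4, hpol hPBK, hpol hPBK, hpol hPBK]
  ring

/-- the vector of the chart -/
theorem xt_eq (hPBK : T_PBK) (N : NF F) (f : Mon (n + 2) → ℤ) (c : ℤ) (u : Fin n → ℤ) :
    gG N f c u = qf (pb N.T f) (pt (N.mu * c ^ 2) (-qf N.q (cv c u)) (fun i => N.mu * c * u i)) := by
  unfold gG xt
  have e2 : cf ℤ N.q = N.q := by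
    funext p
    simp [cf]
  rw [(hPBK ℤ (n + 2) N.T f _).1, e2, mv_int]
  simp only [Int.cast_id]

theorem dG_eq (hPBK : T_PBK) (N : NF F) (f : Mon (n + 2) → ℤ) (c : ℤ) (u : Fin n → ℤ)
    (i : Fin n) :
    dG N f c u i = -dq N.q (cv c u) i.succ * dq (pb N.T f)
      (pt (N.mu * c ^ 2) (-qf N.q (cv c u)) (fun i => N.mu * c * u i)) 1 +
      N.mu * c * dq (pb N.T f)
      (pt (N.mu * c ^ 2) (-qf N.q (cv c u)) (fun i => N.mu * c * u i)) i.succ.succ := by
  have e2 : cf ℤ N.q = N.q := by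
    funext p
    simp [cf]
  set w := pt (N.mu * c ^ 2) (-qf N.q (cv c u)) (fun i => N.mu * c * u i) with hw
  set z : Fin (n + 2) → ℤ :=
    pt 0 (-dq N.q (cv c u) i.succ) (fun k => if k = i then N.mu * c else 0) with hz
  have h1 : dG N f c u i = ∑ l, dq f (fun i => ∑ j, N.T i j * w j) l * ∑ j, N.T l j * z j := by
    unfold dG xt
    rw [e2]
    simp only [mv_int, Int.cast_id]
    rfl
  have h2 : ∑ l, dq f (fun i => ∑ j, N.T i j * w j) l * ∑ j, N.T l j * z j =
      ∑ j, z j * dq (pb N.T f) w j := by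
    have h3 : ∀ j, z j * dq (pb N.T f) w j =
        ∑ l, dq f (fun i => ∑ j, N.T i j * w j) l * (N.T l j * z j) := by
      intro j
      rw [(hPBK ℤ (n + 2) N.T f w).2.1 j, Finset.mul_sum]
      refine Finset.sum_congr rfl fun l _ => ?_
      ring
    rw [Finset.sum_congr rfl fun j _ => h3 j, Finset.sum_comm]
    refine Finset.sum_congr rfl fun l _ => ?_
    rw [Finset.mul_sum]
  rw [h1, h2, Fin.sum_univ_succ, Fin.sum_univ_succ]
  have z0 : z 0 = 0 := rfl
  have z1 : z (Fin.succ 0) = -dq N.q (cv c u) i.succ := rfl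
  have z2 : ∀ r : Fin n, z r.succ.succ = (if r = i then N.mu * c else 0) := fun r => rfl
  rw [z0, z1]
  have h4 : ∑ r : Fin n, z r.succ.succ * dq (pb N.T f) w r.succ.succ =
      N.mu * c * dq (pb N.T f) w i.succ.succ := by
    rw [Finset.sum_eq_single i]
    · rw [z2, if_pos rfl]
    · intro r _ hr
      rw [z2, if_neg hr, zero_mul]
    · intro h
      exact absurd (Finset.mem_univ _) h
  rw [h4]
  have h5 : (Fin.succ 0 : Fin (n + 2)) = 1 := rfl
  rw [h5]
  ring

end NFlem

theorem pf_TRM (hPBK : T_PBK) : T_TRM := by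
  intro n F N p t hp
  have hpp : Prime (p : ℤ) := Nat.prime_iff_prime_int.mp hp
  have hfin : FiniteMultiplicity (p : ℤ) N.mu := by
    rw [Int.finiteMultiplicity_iff]
    exact ⟨by simpa using hp.one_lt.ne', N.mu0⟩
  obtain ⟨mu', hmu, hmu'⟩ := hfin.exists_eq_pow_mul_and_not_dvd
  set v := multiplicity (p : ℤ) N.mu with hv
  refine ⟨t + 3 * (v + 2 * t) + 1, fun t' ht' => ⟨2 * t' + v + 2 * t + 2, ?_⟩⟩
  rintro f e ⟨i0, hi0⟩ he0 heF hef ⟨a0, b0, hab⟩
  set k := 2 * t' + v + 2 * t + 2 with hk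
  obtain ⟨j, hj, ⟨c', hc'⟩, hd2⟩ := exact_pow p (2 * t) (e 0) he0
  have hc'p : ¬ (p : ℤ) ∣ c' := by
    rintro ⟨d, hd⟩
    apply hd2
    refine ⟨d, ?_⟩
    rw [hc', hd]
    ring
  obtain ⟨u0, lam, hlam⟩ : IsCoprime ((p : ℤ) ^ k) c' :=
    IsCoprime.pow_left ((Prime.coprime_iff_not_dvd hpp).mpr hc'p)
  -- `lam c' = 1` modulo `p ^ k`
  have hlamp : ¬ (p : ℤ) ∣ lam := by
    intro h
    have h1 : (p : ℤ) ∣ u0 * (p : ℤ) ^ k := Dvd.dvd.mul_left (dvd_pow_self _ (by omega)) _
    have h2 : (p : ℤ) ∣ 1 := by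
      rw [← hlam]
      exact dvd_add h1 (Dvd.dvd.mul_right h _)
    exact hpp.not_isUnit (isUnit_of_dvd_one h2)
  set c : ℤ := (p : ℤ) ^ j with hcd
  set V := v + j with hV
  have hmuc : N.mu * c = (p : ℤ) ^ V * mu' := by
    rw [hmu, hcd, hV, pow_add]
    ring
  set y : ℤ := lam * e 1 with hy
  set u : Fin n → ℤ := fun i => lam * e i.succ.succ with hu
  set eh : Fin (n + 2) → ℤ := pt c y u with heh
  set el : Fin (n + 2) → ℤ := fun i => lam * e i with hel
  have hcong : ∀ i, (p : ℤ) ^ k ∣ eh i - el i := by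
    intro i
    refine Fin.cases ?_ (fun l => ?_) i
    · have h1 : eh 0 - el 0 = (p : ℤ) ^ k * (u0 * c) := by
        have h2 : eh 0 = c := rfl
        have h3 : el 0 = lam * e 0 := rfl
        rw [h2, h3, hc']
        have h4 : c = (u0 * (p : ℤ) ^ k + lam * c') * c := by rw [hlam, one_mul]
        calc c - lam * ((p : ℤ) ^ j * c') = (u0 * (p : ℤ) ^ k + lam * c') * c -
              lam * ((p : ℤ) ^ j * c') := by rw [← h4]
          _ = _ := by rw [hcd]; ring
      rw [h1]
      exact dvd_mul_right _ _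
    · refine Fin.cases ?_ (fun r => ?_) l
      · have h1 : eh (Fin.succ 0) - el (Fin.succ 0) = 0 := sub_self (lam * e 1)
        rw [h1]
        exact dvd_zero _
      · have h1 : eh r.succ.succ - el r.succ.succ = 0 := sub_self (lam * e r.succ.succ)
        rw [h1]
        exact dvd_zero _
  have hFh : (p : ℤ) ^ k ∣ qf (pb N.T F) eh := by
    have h1 := qf_sub_dvd (pb N.T F) el eh _ hcong
    have h2 : (p : ℤ) ^ k ∣ qf (pb N.T F) el := by
      rw [hel, qf_smul']
      exact Dvd.dvd.mul_left heF _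
    exact (dvd_sub_left h2).mp h1
  have hfh : (p : ℤ) ^ k ∣ qf (pb N.T f) eh := by
    have h1 := qf_sub_dvd (pb N.T f) el eh _ hcong
    have h2 : (p : ℤ) ^ k ∣ qf (pb N.T f) el := by
      rw [hel, qf_smul']
      exact Dvd.dvd.mul_left hef _
    exact (dvd_sub_left h2).mp h1
  have hq : qf N.q (cv c u) = qf (pb N.T F) eh - N.mu * c * y := by
    rw [heh, hpol hPBK]
    ring
  have hpV : ∀ m : ℕ, (p : ℤ) ^ m ∣ N.mu * c → m ≤ V := by
    intro m hm
    by_contra hc
    have h1 : (p : ℤ) ^ (V + 1) ∣ (p : ℤ) ^ V * mu' := by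
      rw [← hmuc]
      exact (pow_dvd_pow _ (by omega)).trans hm
    rw [pow_succ] at h1
    exact hmu' ((mul_dvd_mul_iff_left (pow_ne_zero _ hpp.ne_zero)).mp h1)
  refine ⟨j, u, ?_, ⟨?_, ?_⟩, ?_, ?_⟩
  · intro h
    have := hpV t' h
    omega
  · intro k0 hk0
    have h1 := hpV k0 hk0
    change (p : ℤ) ^ k0 ∣ qf N.q (cv c u)
    rw [hq]
    exact dvd_sub ((pow_dvd_pow _ (by omega)).trans hFh) (Dvd.dvd.mul_right hk0 _)
  · intro hpc hpu hall
    have hpy : ¬ (p : ℤ) ∣ y := by
      intro hpy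
      have h1 : ∀ i, (p : ℤ) ∣ eh i := by
        intro i
        refine Fin.cases hpc (fun l => ?_) i
        refine Fin.cases hpy (fun r => ?_) l
        exact hpu r
      have h2 : (p : ℤ) ∣ el i0 :=
        (dvd_sub_right (h1 i0)).mp ((dvd_pow_self (p : ℤ) (by omega)).trans (hcong i0))
      rcases hpp.dvd_or_dvd h2 with h3 | h3
      · exact hlamp h3
      · exact hi0 h3
    have h1 : (p : ℤ) ^ (V + 1) ∣ qf N.q (cv c u) := hall V (by
      change (p : ℤ) ^ V ∣ N.mu * c
      rw [hmuc]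
      exact dvd_mul_right _ _)
    rw [hq] at h1
    have h2 : (p : ℤ) ^ (V + 1) ∣ N.mu * c * y :=
      (dvd_sub_right ((pow_dvd_pow _ (by omega)).trans hFh)).mp h1
    rw [hmuc, pow_succ, mul_assoc] at h2
    have h3 := (mul_dvd_mul_iff_left (pow_ne_zero _ hpp.ne_zero)).mp h2
    rcases hpp.dvd_or_dvd h3 with h4 | h4
    · exact hmu' h4
    · exact hpy h4
  · change (p : ℤ) ^ (2 * t') ∣ gG N f c u
    rw [xt_eq hPBK]
    have hw : ∀ i, (p : ℤ) ^ k ∣ (pt (N.mu * c ^ 2) (-qf N.q (cv c u)) (fun i => N.mu * c * u i) :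
        Fin (n + 2) → ℤ) i - N.mu * c * eh i := by
      intro i
      refine Fin.cases ?_ (fun l => ?_) i
      · have h1 : N.mu * c ^ 2 - N.mu * c * c = 0 := by ring
        exact h1 ▸ dvd_zero _
      · refine Fin.cases ?_ (fun r => ?_) l
        · change (p : ℤ) ^ k ∣ -qf N.q (cv c u) - N.mu * c * y
          rw [hq]
          have h1 : -(qf (pb N.T F) eh - N.mu * c * y) - N.mu * c * y = -qf (pb N.T F) eh := by
            ring
          rw [h1]
          exact (dvd_neg).mpr hFh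
        · have h1 : N.mu * c * u r - N.mu * c * u r = 0 := sub_self _
          exact h1 ▸ dvd_zero _
    have h1 := qf_sub_dvd (pb N.T f) _ _ _ hw
    rw [qf_smul'] at h1
    have h2 := (dvd_sub_left (Dvd.dvd.mul_left hfh ((N.mu * c) ^ 2))).mp h1
    exact (pow_dvd_pow _ (by omega)).trans h2
  · by_contra hcon
    push Not at hcon
    have hw : ∀ i, (p : ℤ) ^ k ∣ (pt (N.mu * c ^ 2) (-qf N.q (cv c u)) (fun i => N.mu * c * u i) :
        Fin (n + 2) → ℤ) i - N.mu * c * eh i := by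
      intro i
      refine Fin.cases ?_ (fun l => ?_) i
      · have h1 : N.mu * c ^ 2 - N.mu * c * c = 0 := by ring
        exact h1 ▸ dvd_zero _
      · refine Fin.cases ?_ (fun r => ?_) l
        · change (p : ℤ) ^ k ∣ -qf N.q (cv c u) - N.mu * c * y
          rw [hq]
          have h1 : -(qf (pb N.T F) eh - N.mu * c * y) - N.mu * c * y = -qf (pb N.T F) eh := by
            ring
          rw [h1]
          exact (dvd_neg).mpr hFh
        · have h1 : N.mu * c * u r - N.mu * c * u r = 0 := sub_self _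
          exact h1 ▸ dvd_zero _
    set cc : Fin 2 → Mon (n + 2) → ℤ := ![pb N.T F, pb N.T f] with hcc
    have hjm : ∀ a b, jm cc eh a b = dq (pb N.T F) eh a * dq (pb N.T f) eh b -
        dq (pb N.T F) eh b * dq (pb N.T f) eh a := fun a b => rfl
    have hg1 : dq (pb N.T F) eh 1 = N.mu * c := dF1 hPBK N c y u
    have hgs : ∀ i : Fin n, dq (pb N.T F) eh i.succ.succ = dq N.q (cv c u) i.succ :=
      fun i => dFss hPBK N c y u i
    -- the minors with `y`
    have hA : ∀ i : Fin n, (p : ℤ) ^ t' ∣ N.mu * c * jm cc eh 1 i.succ.succ := by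
      intro i
      have h1 := hcon i
      change (p : ℤ) ^ t' ∣ dG N f c u i at h1
      rw [dG_eq hPBK] at h1
      obtain ⟨r1, hr1⟩ := dq_sub_dvd (pb N.T f) _ _ _ hw 1
      obtain ⟨r2, hr2⟩ := dq_sub_dvd (pb N.T f) _ _ _ hw i.succ.succ
      rw [dq_smul', sub_eq_iff_eq_add] at hr1 hr2
      rw [hr1, hr2] at h1
      have h2 : -dq N.q (cv c u) i.succ * ((p : ℤ) ^ k * r1 + N.mu * c * dq (pb N.T f) eh 1) +
          N.mu * c * ((p : ℤ) ^ k * r2 + N.mu * c * dq (pb N.T f) eh i.succ.succ) =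
          (p : ℤ) ^ k * (-dq N.q (cv c u) i.succ * r1 + N.mu * c * r2) +
          N.mu * c * jm cc eh 1 i.succ.succ := by
        rw [hjm, hg1, hgs]
        ring
      rw [h2] at h1
      exact (dvd_add_right (Dvd.dvd.mul_right (pow_dvd_pow _ (by omega)) _)).mp h1
    have hB : ∀ a : Fin (n + 2), a ≠ 0 → (p : ℤ) ^ (t' - V) ∣ jm cc eh 1 a := by
      intro a
      refine Fin.cases (fun h => absurd rfl h) (fun l => ?_) a
      intro _
      refine Fin.cases ?_ (fun r => ?_) l
      · have h1 : jm cc eh 1 (Fin.succ 0) = 0 := by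
          rw [hjm]
          exact sub_self _
        rw [h1]
        exact dvd_zero _
      · have h1 := hA r
        rw [hmuc] at h1
        exact canc p t' V hp mu' _ hmu' h1
    have hC : ∀ a b : Fin (n + 2), a ≠ 0 → b ≠ 0 → (p : ℤ) ^ (t' - V - V) ∣ jm cc eh a b := by
      intro a b ha hb
      have h1 : N.mu * c * jm cc eh a b = dq (pb N.T F) eh a * jm cc eh 1 b -
          dq (pb N.T F) eh b * jm cc eh 1 a := by
        rw [hjm, hjm, hjm, hg1]
        ring
      have h2 : (p : ℤ) ^ (t' - V) ∣ (p : ℤ) ^ V * mu' * jm cc eh a b := by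
        rw [← hmuc, h1]
        exact dvd_sub (Dvd.dvd.mul_left (hB b hb) _) (Dvd.dvd.mul_left (hB a ha) _)
      exact canc p _ V hp mu' _ hmu' h2
    have hD : ∀ a : Fin (n + 2), a ≠ 0 → (p : ℤ) ^ (t' - V - V - j) ∣ jm cc eh 0 a := by
      intro a ha
      have h1 : ∑ l, eh l * jm cc eh l a =
          2 * qf (pb N.T F) eh * dq (pb N.T f) eh a - dq (pb N.T F) eh a * (2 * qf (pb N.T f) eh) := by
        rw [← Pool.Agent.H13.RQ.Hs_euler, ← Pool.Agent.H13.RQ.Hs_euler, Finset.sum_mul,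
          Finset.mul_sum, ← Finset.sum_sub_distrib]
        refine Finset.sum_congr rfl fun l _ => ?_
        rw [hjm]
        ring
      rw [Fin.sum_univ_succ] at h1
      have h2 : (p : ℤ) ^ (t' - V - V) ∣ ∑ l : Fin (n + 1), eh l.succ * jm cc eh l.succ a :=
        Finset.dvd_sum fun l _ => Dvd.dvd.mul_left (hC l.succ a (Fin.succ_ne_zero l) ha) _
      have h3 : (p : ℤ) ^ (t' - V - V) ∣ 2 * qf (pb N.T F) eh * dq (pb N.T f) eh a -
          dq (pb N.T F) eh a * (2 * qf (pb N.T f) eh) := by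
        have g1 : (p : ℤ) ^ (t' - V - V) ∣ qf (pb N.T F) eh := (pow_dvd_pow _ (by omega)).trans hFh
        have g2 : (p : ℤ) ^ (t' - V - V) ∣ qf (pb N.T f) eh := (pow_dvd_pow _ (by omega)).trans hfh
        exact dvd_sub (Dvd.dvd.mul_right (Dvd.dvd.mul_left g1 _) _)
          (Dvd.dvd.mul_left (Dvd.dvd.mul_left g2 _) _)
      have h4 : (p : ℤ) ^ (t' - V - V) ∣ eh 0 * jm cc eh 0 a := by
        rw [← h1] at h3
        exact (dvd_add_left h2).mp h3
      have h5 : eh 0 * jm cc eh 0 a = (p : ℤ) ^ j * 1 * jm cc eh 0 a := by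
        rw [mul_one]
        rfl
      rw [h5] at h4
      exact canc p _ j hp 1 _ (fun h => hpp.not_isUnit (isUnit_of_dvd_one h)) h4
    have hall : ∀ a b : Fin (n + 2), (p : ℤ) ^ t ∣ jm cc eh a b := by
      intro a b
      have hanti : jm cc eh a b = -jm cc eh b a := by
        rw [hjm, hjm]
        ring
      have hjV : j ≤ V := by omega
      have hVt : V ≤ v + 2 * t := by omega
      by_cases ha : a = 0
      · by_cases hb : b = 0
        · rw [ha, hb, hjm]
          exact (sub_self (dq (pb N.T F) eh 0 * dq (pb N.T f) eh 0)).symm ▸ dvd_zero _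
        · rw [ha]
          exact (pow_dvd_pow _ (by omega)).trans (hD b hb)
      · by_cases hb : b = 0
        · rw [hanti, hb]
          exact (dvd_neg).mpr ((pow_dvd_pow _ (by omega)).trans (hD a ha))
        · exact (pow_dvd_pow _ (by omega)).trans (hC a b ha hb)
    have h1 := jm_sub_dvd cc el eh _ hcong a0 b0
    have h2 : (p : ℤ) ^ t ∣ jm cc el a0 b0 :=
      (dvd_sub_right (hall a0 b0)).mp ((pow_dvd_pow _ (by omega)).trans h1)
    rw [hel, jm_smul'] at h2
    have h3 : IsCoprime ((p : ℤ) ^ t) (lam ^ 2) :=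
      IsCoprime.pow_left (IsCoprime.pow_right ((Prime.coprime_iff_not_dvd hpp).mpr hlamp))
    exact hab (h3.dvd_of_dvd_mul_left h2)

end Pool.Agent.H90.FQ
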